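import Pool.Agent.Y34.HB.Stm
import Pool.Agent.TH60.FP.Trans
import Pool.Agent.TH60.FP.Strip

/-!
# Project HB: composition and uniqueness of parallelisms, the stabiliser of a parallelism class
(jobs HB-COMP+UNIQ and HB-HOM)
-/

set_option autoImplicit false

universe u v

open Metric Set Filter Topology
open Pool.Agent.TH60.FP Pool.Agent.Y34.HB

namespace Pool.Agent.Y899.HB

/-- a parametrised line in a flat -/
theorem line_isom {X : Type u} [MetricSpace X] {k : ℕ} {f : E k → X} (hf : Isometry f)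
    {e : E k → E k} (he : Isometry e) (z v : E k) (hv : ‖v‖ = 1) :
    Isometry fun t : ℝ => f (e (z + t • v)) := by
  refine Isometry.of_dist_eq fun s t => ?_
  rw [hf.dist_eq, he.dist_eq, dist_add_left, dist_eq_norm, ← sub_smul, norm_smul, hv, mul_one,
    Real.dist_eq, Real.norm_eq_abs]

theorem dist_line {k : ℕ} (z v : E k) (hv : ‖v‖ = 1) (s t : ℝ) :
    dist (z + s • v) (z + t • v) ^ 2 = (t - s) ^ 2 := by
  rw [dist_add_left, dist_eq_norm, ← sub_smul, norm_smul, hv, mul_one, Real.norm_eq_abs, sq_abs]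
  ring

/-- COMP -/
theorem t1 : S_COMP.{u} := by
  intro X _ hX k f1 f2 f3 e e' d d' h1 h2 h3 hr hr'
  have he : Isometry e := e.isometry
  have he' : Isometry e' := e'.isometry
  have main : ∀ z w : E k,
      dist (f1 z) (f3 (e' (e w))) ^ 2 = dist (f1 z) (f3 (e' (e z))) ^ 2 + dist z w ^ 2 ∧
      dist (f1 w) (f3 (e' (e w))) ^ 2 = dist (f1 z) (f3 (e' (e z))) ^ 2 := by
    intro z w
    by_cases hzw : z = w
    · subst hzw
      refine ⟨?_, rfl⟩
      rw [dist_self, zero_pow two_ne_zero, add_zero]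
    have hne : w - z ≠ 0 := sub_ne_zero.2 (Ne.symm hzw)
    have hn : ‖w - z‖ ≠ 0 := norm_ne_zero_iff.2 hne
    set v : E k := ‖w - z‖⁻¹ • (w - z) with hv
    have hv1 : ‖v‖ = 1 := by
      rw [hv, norm_smul, norm_inv, norm_norm, inv_mul_cancel₀ hn]
    have hw : z + ‖w - z‖ • v = w := by
      rw [hv, smul_smul, mul_inv_cancel₀ hn, one_smul, add_sub_cancel]
    have ha := line_isom h2 he z v hv1
    have hb : Isometry fun t : ℝ => f1 (z + t • v) := line_isom h1 isometry_id z v hv1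
    have hc : Isometry fun t : ℝ => f3 (e' (e (z + t • v))) :=
      line_isom h3 (he'.comp he) z v hv1
    have hab : Sy (fun t : ℝ => f2 (e (z + t • v))) (fun t : ℝ => f1 (z + t • v)) := by
      intro s t
      show dist (f2 (e (z + s • v))) (f1 (z + t • v)) ^ 2 =
        dist (f2 (e (z + (0 : ℝ) • v))) (f1 (z + (0 : ℝ) • v)) ^ 2 + (t - s) ^ 2
      rw [dist_comm (f2 (e (z + s • v))), dist_comm (f2 (e (z + (0 : ℝ) • v))), hr.2, hr.2,
        dist_line z v hv1, dist_line z v hv1]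
      ring
    have hac : Sy (fun t : ℝ => f2 (e (z + t • v))) (fun t : ℝ => f3 (e' (e (z + t • v)))) := by
      intro s t
      show dist (f2 (e (z + s • v))) (f3 (e' (e (z + t • v)))) ^ 2 =
        dist (f2 (e (z + (0 : ℝ) • v))) (f3 (e' (e (z + (0 : ℝ) • v)))) ^ 2 + (t - s) ^ 2
      rw [hr'.2, hr'.2, he.dist_eq, he.dist_eq, dist_line z v hv1, dist_line z v hv1]
      ring
    have hbc := Pool.Agent.TH60.FP.t_trans Pool.Agent.TH60.FP.t_strip X hX _ _ _ ha hb hc hab hac
    have k1 := hbc 0 ‖w - z‖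
    have k2 := hbc ‖w - z‖ ‖w - z‖
    simp only [zero_smul, add_zero, hw, sub_zero, sub_self] at k1 k2
    refine ⟨?_, ?_⟩
    · rw [k1, dist_comm z w, dist_eq_norm w z]
    · rw [k2, zero_pow two_ne_zero, add_zero]
  refine ⟨dist (f1 0) (f3 (e' (e 0))), dist_nonneg, fun z w => ?_⟩
  rw [(main z w).1, (main 0 z).2]

/-- UNIQ -/
theorem t2 : S_UNIQ.{u} := by
  intro X _ k f h e e' d d' _ _ hr hr'
  have key : ∀ z w : E k, d ^ 2 + dist z (e.symm (e' w)) ^ 2 = d' ^ 2 + dist z w ^ 2 := by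
    intro z w
    rw [← hr.2, ← hr'.2, AffineIsometryEquiv.apply_symm_apply]
  have h1 : ∀ w : E k, dist w (e.symm (e' w)) ^ 2 = 0 ∧ d ^ 2 = d' ^ 2 := by
    intro w
    have a1 := key (e.symm (e' w)) w
    have a2 := key w w
    rw [dist_self, dist_comm (e.symm (e' w)) w] at a1
    rw [dist_self] at a2
    have hz : (0 : ℝ) ^ 2 = 0 := by norm_num
    rw [hz] at a1 a2
    constructor <;> linarith
  refine ⟨?_, ?_⟩
  · ext w : 1
    have h2 := dist_eq_zero.1 (pow_eq_zero_iff two_ne_zero |>.1 (h1 w).1)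
    have h3 : e w = e (e.symm (e' w)) := congrArg e h2
    rwa [AffineIsometryEquiv.apply_symm_apply] at h3
  · have h2 := (h1 0).2
    rcases sq_eq_sq_iff_eq_or_eq_neg.1 h2 with h3 | h3
    · exact h3
    · have := hr.1
      have := hr'.1
      linarith

theorem near_of_rect {X : Type u} [MetricSpace X] {k : ℕ} {f h : E k → X} {e : E k → E k} {d : ℝ}
    (hr : Rect f h e d) : Near f h := by
  refine ⟨d, fun z => (infDist_le_dist_of_mem (mem_range_self (e z))).trans ?_⟩
  have h1 := hr.2 z z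
  rw [dist_self, zero_pow two_ne_zero, add_zero] at h1
  exact (pow_le_pow_iff_left₀ dist_nonneg hr.1 two_ne_zero).1 h1.le

theorem rect_self_dist {X : Type u} [MetricSpace X] {k : ℕ} {f h : E k → X} {e : E k → E k}
    {d : ℝ} (hr : Rect f h e d) (z : E k) : dist (f z) (h (e z)) = d := by
  have h1 := hr.2 z z
  rw [dist_self, zero_pow two_ne_zero, add_zero] at h1
  exact (pow_left_inj₀ dist_nonneg hr.1 two_ne_zero).1 h1

/-- HOM -/
theorem t3 (h1 : S_PAR.{u}) (h2 : S_COMP.{u}) (h3 : S_UNIQ.{u}) : S_HOM.{u, v} := by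
  intro X _ G _ _ hG k f hf
  have := hG.proper
  have := hG.isom
  have hgf : ∀ g : G, Isometry fun z => g • f z := fun g => (isometry_smul X g).comp hf
  have hpar : ∀ g : G, Near (fun z => g • f z) f →
      ∃ (e : E k ≃ᵃⁱ[ℝ] E k) (d : ℝ), Rect (fun z => g • f z) f e d := fun g hg => by
    obtain ⟨e, he⟩ := h1 X hG.cn k _ f (hgf g) hf hg
    exact ⟨e, _, he⟩
  have hmul : ∀ (g h : G) (e e' : E k ≃ᵃⁱ[ℝ] E k) (d d' : ℝ),
      Rect (fun z => g • f z) f e d → Rect (fun z => h • f z) f e' d' →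
      ∃ d'', Rect (fun z => (g * h) • f z) f (fun z => e (e' z)) d'' := by
    intro g h e e' d d' hr hr'
    have hr2 : Rect (fun z => (g * h) • f z) (fun z => g • f z) e' d' := by
      refine ⟨hr'.1, fun z w => ?_⟩
      rw [← hr'.2 z w]
      show dist ((g * h) • f z) (g • f (e' w)) ^ 2 = dist (h • f z) (f (e' w)) ^ 2
      rw [mul_smul, dist_smul]
    exact h2 X hG.cn k _ _ f e' e d' d (hgf (g * h)) (hgf g) hf hr2 hr
  have hone : Near (fun z => (1 : G) • f z) f := by
    refine ⟨0, fun z => ?_⟩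
    show infDist ((1 : G) • f z) (range f) ≤ 0
    rw [one_smul, infDist_zero_of_mem (mem_range_self z)]
  have hinv : ∀ g : G, Near (fun z => g • f z) f → Near (fun z => g⁻¹ • f z) f := by
    intro g hg
    obtain ⟨e, d, hr⟩ := hpar g hg
    refine ⟨d, fun z => (infDist_le_dist_of_mem (mem_range_self (e.symm z))).trans ?_⟩
    have h4 := rect_self_dist hr (e.symm z)
    rw [AffineIsometryEquiv.apply_symm_apply] at h4
    rw [← h4, dist_comm, ← dist_smul g (f (e.symm z)) (g⁻¹ • f z), smul_inv_smul]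
  let Γ : Subgroup G :=
    { carrier := {g | Near (fun z => g • f z) f}
      mul_mem' := by
        intro g h hg hh
        obtain ⟨e, d, hr⟩ := hpar g hg
        obtain ⟨e', d', hr'⟩ := hpar h hh
        obtain ⟨d'', hr''⟩ := hmul g h e e' d d' hr hr'
        exact near_of_rect hr''
      one_mem' := hone
      inv_mem' := fun {g} hg => hinv g hg }
  have hΓ : ∀ g : G, g ∈ Γ ↔ Near (fun z => g • f z) f := fun g => Iff.rfl
  choose e d hed using fun g : Γ => hpar (g : G) g.2
  refine ⟨Γ, MonoidHom.mk' e fun g h => ?_, hΓ, fun g => ⟨d g, hed g⟩⟩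
  obtain ⟨d'', hr⟩ := hmul g h (e g) (e h) (d g) (d h) (hed g) (hed h)
  exact (h3 X k _ f (e (g * h)) (e g * e h) (d (g * h)) d'' (hgf ((g * h : Γ) : G)) hf
    (hed (g * h)) hr).1

end Pool.Agent.Y899.HB
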